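import Mathlib
import Pool.Agent.H58.EB.Clique
import Pool.Agent.H58.EB.Prm

/-!
# Euler bricks of dimension `n` have all edges at least `exp (c n ^ 2)`

For a prime `p` which is `3` or `5` mod `8` the number `2` is no square mod `p`. So the entries
`x i` with a given `p`-adic valuation `v` have different classes `(x i / p ^ v) ^ 2` mod `p`, and
the sum of any two of these classes is a square. A character sum bounds such a set of classes by
`√p + 3`. Hence for `p ≤ n ^ 2 / 64` the product of all entries is divisible by `p` at least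
`n ^ 2 / (32 √p)` times. Summed over the primes `3 mod 8` up to `n ^ 2 / 64`, the logarithm of the
product is at least `c n ^ 3`, so that the largest entry is at least `exp (c n ^ 2)`, and the
largest entry is at most the square of any other entry.
-/

set_option autoImplicit false

namespace Pool.Agent.Results.MP_93721d_nt.EdgeGrowth
open Finset Pool.Agent.H58.EB

/-- an entry is at most the square of any other entry -/
lemma le_sq {a b : ℕ} (ha : 0 < a) (h : IsSquare (a ^ 2 + b ^ 2)) : 2 * b + 1 ≤ a ^ 2 := by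
  obtain ⟨z, hz⟩ := h
  have h1 : b < z := by
    by_contra h2
    have h3 : z * z ≤ b * b := Nat.mul_le_mul (by omega) (by omega)
    have h4 : 0 < a ^ 2 := by positivity
    nlinarith
  have h2 : (b + 1) * (b + 1) ≤ z * z := Nat.mul_le_mul h1 h1
  nlinarith

theorem result : ∃ c : ℝ, 0 < c ∧ ∀ (n : ℕ) (x : Fin n → ℕ+), 2 ≤ n →
    (∀ i j, i ≠ j → IsSquare ((x i : ℕ) ^ 2 + (x j : ℕ) ^ 2)) →
    ∀ i, Real.exp (c * (n : ℝ) ^ 2) ≤ ((x i : ℕ) : ℝ) := by
  obtain ⟨c0, x0, hc0, hpr⟩ := primes38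
  set n0 : ℝ := max 12 (Real.sqrt (1024 * |x0|)) with hn0
  have hn012 : 12 ≤ n0 := le_max_left _ _
  have hn0x : Real.sqrt (1024 * |x0|) ≤ n0 := le_max_right _ _
  refine ⟨min (c0 / 8192) (1 / (2 * n0 ^ 2)), lt_min (by positivity) (by positivity), ?_⟩
  set c : ℝ := min (c0 / 8192) (1 / (2 * n0 ^ 2)) with hc
  have hc1 : c ≤ c0 / 8192 := min_le_left _ _
  have hc2 : c ≤ 1 / (2 * n0 ^ 2) := min_le_right _ _
  have hcpos : 0 < c := lt_min (by positivity) (by positivity)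
  intro n x hn2 hsq i
  have hpos : ∀ k, 0 < (x k : ℕ) := fun k => (x k).pos
  have hother : ∃ j : Fin n, j ≠ i := by
    haveI : Nontrivial (Fin n) := Fin.nontrivial_iff_two_le.2 hn2
    exact exists_ne i
  obtain ⟨j, hji⟩ := hother
  have hij2 : 2 * (x j : ℕ) + 1 ≤ (x i : ℕ) ^ 2 := le_sq (hpos i) (hsq i j (Ne.symm hji))
  have hxi2 : 2 ≤ (x i : ℕ) := by
    by_contra h
    have h1 : (x i : ℕ) = 1 := by
      have := hpos i
      omega
    rw [h1] at hij2
    have := hpos j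
    omega
  have hxi2' : (2 : ℝ) ≤ ((x i : ℕ) : ℝ) := by exact_mod_cast hxi2
  have hnn : (0 : ℝ) ≤ n := Nat.cast_nonneg n
  by_cases hsmall : (n : ℝ) < n0
  · -- small dimension
    have h1 : c * (n : ℝ) ^ 2 ≤ 1 / 2 := by
      calc c * (n : ℝ) ^ 2 ≤ 1 / (2 * n0 ^ 2) * n0 ^ 2 := by gcongr
        _ = 1 / 2 := by
          have : n0 ≠ 0 := by linarith
          field_simp
    have h2 : Real.exp (c * (n : ℝ) ^ 2) ≤ 2 := by
      have h3 : Real.exp (c * (n : ℝ) ^ 2) ≤ Real.exp (1 / 2) := Real.exp_le_exp.2 h1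
      have h4 : Real.exp (1 / 2) ^ 2 ≤ 2 ^ 2 := by
        rw [← Real.exp_nat_mul]
        have h5 := Real.exp_one_lt_d9
        have h6 : (((2 : ℕ) : ℝ) * (1 / 2)) = 1 := by norm_num
        rw [h6]
        linarith
      have h5 : Real.exp (1 / 2) ≤ 2 := le_of_sq_le_sq h4 (by norm_num)
      linarith
    linarith
  -- large dimension
  have hlarge : n0 ≤ n := not_lt.1 hsmall
  have hn12 : (12 : ℝ) ≤ n := hn012.trans hlarge
  set X : ℝ := (n : ℝ) ^ 2 / 1024 with hX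
  have hXx0 : x0 ≤ X := by
    have h1 : 1024 * |x0| ≤ (n : ℝ) ^ 2 := by
      have h2 : Real.sqrt (1024 * |x0|) ≤ n := hn0x.trans hlarge
      rwa [Real.sqrt_le_left hnn] at h2
    rw [hX, le_div_iff₀ (by norm_num)]
    have := le_abs_self x0
    linarith
  have hX0 : 0 ≤ X := by positivity
  have hsum := hpr X hXx0
  have hP : ∀ p ∈ PP X, p.Prime ∧ (p % 8 = 3 ∨ p % 8 = 5) ∧ 8 * Real.sqrt p ≤ n := by
    intro p hp
    rw [PP, mem_filter, mem_Icc] at hp
    obtain ⟨⟨h1, h2⟩, h3, h4⟩ := hp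
    refine ⟨h3, Or.inl h4, ?_⟩
    have h5 : (p : ℝ) ≤ 8 * X + 1 := by
      have h6 : (p : ℝ) ≤ (⌊8 * X⌋₊ : ℝ) + 1 := by exact_mod_cast h2
      have h7 : (⌊8 * X⌋₊ : ℝ) ≤ 8 * X := Nat.floor_le (by positivity)
      linarith
    have h6 : Real.sqrt p ≤ n / 8 := by
      rw [Real.sqrt_le_left (by positivity)]
      rw [hX] at h5
      nlinarith
    linarith
  have hlog := log_sum (fun k => (x k : ℕ)) hpos hsq (PP X) hP
  haveI : Nonempty (Fin n) := ⟨i⟩
  obtain ⟨m, hm⟩ := Finite.exists_max (fun k : Fin n => (x k : ℕ))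
  have hm' : ∑ k, Real.log ((x k : ℕ) : ℝ) ≤ n * Real.log ((x m : ℕ) : ℝ) := by
    calc ∑ k, Real.log ((x k : ℕ) : ℝ) ≤ ∑ _k : Fin n, Real.log ((x m : ℕ) : ℝ) := by
          apply sum_le_sum
          intro k _
          apply Real.log_le_log
          · exact_mod_cast hpos k
          · exact_mod_cast hm k
      _ = n * Real.log ((x m : ℕ) : ℝ) := by simp
  have hmax : c0 * (n : ℝ) ^ 2 / 4096 ≤ Real.log ((x m : ℕ) : ℝ) := by
    have h1 : (n : ℝ) / 4 * (c0 * X) ≤ n * Real.log ((x m : ℕ) : ℝ) := by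
      calc (n : ℝ) / 4 * (c0 * X) ≤ (n : ℝ) / 4 * ∑ p ∈ PP X, Real.log p := by gcongr
        _ ≤ _ := hlog
        _ ≤ _ := hm'
    have h2 : (n : ℝ) * (c0 * (n : ℝ) ^ 2 / 4096) ≤ n * Real.log ((x m : ℕ) : ℝ) := by
      calc (n : ℝ) * (c0 * (n : ℝ) ^ 2 / 4096) = (n : ℝ) / 4 * (c0 * X) := by rw [hX]; ring
        _ ≤ _ := h1
    exact le_of_mul_le_mul_left h2 (by linarith)
  have hxm : ((x m : ℕ) : ℝ) ≤ ((x i : ℕ) : ℝ) ^ 2 := by
    by_cases hmi : m = i
    · rw [hmi]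
      nlinarith
    · have h1 := le_sq (hpos i) (hsq i m (Ne.symm hmi))
      have h2 : (x m : ℕ) ≤ (x i : ℕ) ^ 2 := by omega
      exact_mod_cast h2
  have hlog2 : Real.log ((x m : ℕ) : ℝ) ≤ 2 * Real.log ((x i : ℕ) : ℝ) := by
    have h1 : Real.log ((x m : ℕ) : ℝ) ≤ Real.log (((x i : ℕ) : ℝ) ^ 2) := by
      apply Real.log_le_log _ hxm
      exact_mod_cast hpos m
    rw [Real.log_pow] at h1
    exact_mod_cast h1
  have hfin : c * (n : ℝ) ^ 2 ≤ Real.log ((x i : ℕ) : ℝ) := by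
    have h1 : c * (n : ℝ) ^ 2 ≤ c0 / 8192 * (n : ℝ) ^ 2 := by gcongr
    have h2 : c0 / 8192 * (n : ℝ) ^ 2 = (c0 * (n : ℝ) ^ 2 / 4096) / 2 := by ring
    linarith
  rw [Real.le_log_iff_exp_le (by linarith)] at hfin
  exact hfin

end Pool.Agent.Results.MP_93721d_nt.EdgeGrowth
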