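import Pool.Agent.H87.EBK.All2

/-!
MP_93721d_nt: Euler bricks in every dimension above three.

Which patterns of integral face diagonals can be realised by boxes with different integer edges, and in which shapes?
Let `H` be a finite graph without `K₄`-minor and join two integer vectors, indexed by the vertices of `H`, if they
differ by `e_a - e_b` for an edge `ab` of `H`.  Then every finite subgraph of this infinite graph is such a pattern,
in every shape of product form up to `ε`.  The unit vectors give `H` itself: all patterns without a `K₄`-minor, in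
every shape.  Other subgraphs are all Cartesian products of such graphs and all pieces of the triangular lattice.
The complete graph `K₄` is the open four-dimensional case of Q1.

Proof: `Pool/Agent/H87/EBK/Stmts.lean` and `Stmts2.lean` (all steps with their proofs) and the files imported by
`Pool/Agent/H87/EBK/All.lean` and `All2.lean`.
-/

namespace Pool.Agent.Results.MP_93721d_nt.FacePatterns

open Pool.EBK

theorem result (W : Type) [Fintype W] (H : SimpleGraph W) (hH : ¬ HasK4Minor H)
    (V : Type) [Finite V] (G : SimpleGraph V) (φ : V → W → ℤ) (hφ : Function.Injective φ)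
    (hG : ∀ u v, G.Adj u v → ∃ a b, H.Adj a b ∧ φ u a = φ v a + 1 ∧ φ u b = φ v b - 1 ∧
      ∀ c, c ≠ a → c ≠ b → φ u c = φ v c)
    (y : W → ℝ) (ε : ℝ) (hy : ∀ a, 0 < y a) (hε : 0 < ε) :
    ∃ (x : V → ℕ) (N : ℕ), Function.Injective x ∧ (∀ u, 0 < x u) ∧ 0 < N ∧
      (∀ u, |(x u : ℝ) / N - ∏ a, y a ^ (φ u a)| < ε) ∧
      ∀ u v, G.Adj u v → IsSquare (x u ^ 2 + x v ^ 2) :=
  final3 W H hH V G φ hφ hG y ε hy hε

end Pool.Agent.Results.MP_93721d_nt.FacePatterns
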