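import Pool.Agent.H62.EB3.Main

/-!
# Primitive Euler bricks are sparse in every dimension
-/

set_option autoImplicit false

namespace Pool.Agent.Results.MP_93721d_nt.SparseBricks

/-- an Euler brick in dimension `n` -/
def EulerBrick (n : ℕ) (x : Fin n → ℕ) : Prop :=
  (∀ i, 0 < x i) ∧ ∀ i j, i ≠ j → ∃ f : ℕ, x i ^ 2 + x j ^ 2 = f ^ 2

/-- no common divisor of all the edges except `1` -/
def Primitive (n : ℕ) (x : Fin n → ℕ) : Prop := ∀ g : ℕ, (∀ i, g ∣ x i) → g = 1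

/-- **at most `C X^(4/5 + ε)` primitive Euler bricks of dimension `n` have an edge `≤ X`** -/
theorem result : ∀ n : ℕ, 3 ≤ n → ∀ ε : ℝ, 0 < ε → ∃ C : ℝ, ∀ X : ℝ, 1 ≤ X →
    {x : Fin n → ℕ | EulerBrick n x ∧ Primitive n x ∧ ∃ i, (x i : ℝ) ≤ X}.Finite ∧
    ({x : Fin n → ℕ | EulerBrick n x ∧ Primitive n x ∧ ∃ i, (x i : ℝ) ≤ X}.ncard : ℝ) ≤
      C * X ^ (4 / 5 + ε) :=
  Pool.EB3.main

end Pool.Agent.Results.MP_93721d_nt.SparseBricks
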