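import Pool.Agent.H87.EBK.All3

/-!
MP_93721d_nt: Euler bricks in every dimension above three.

Patterns of integral face diagonals which contain arbitrary graphs as topological minors.  Let `G` be a finite graph,
`h` a vertex and `B` a set of pairwise non-adjacent vertices of degree at most 2, all of whose neighbours are neighbours
of `h`, such that `G - B` has no `K₄`-minor.  (For example: `K_n`, or any other finite graph, with every edge replaced by
any number of paths of length at least 2, and a new vertex `h` joined to all vertices except one inner vertex of each path;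
these are `B`, and `G - B` is a forest together with `h`.)  Then `G` can be realised by a box with different integer
edges, in every shape up to `ε`.  Q1 asks for `K_n` itself.

Proof: `Pool/Agent/H87/EBK/Stmts3.lean` and `Stmts4.lean` (with `Stmts.lean`, `Stmts2.lean`: all steps with their
proofs), `FINV.lean` and the files imported by `Pool/Agent/H87/EBK/All3.lean`.
-/

namespace Pool.Agent.Results.MP_93721d_nt.Subdivisions

open Pool.EBK

theorem result (V : Type) [Finite V] (G : SimpleGraph V) (h : V) (B : Set V) (hh : h ∉ B)
    (hB : ∀ u ∈ B, ∃ p q, ∀ w, G.Adj u w → (w = p ∨ w = q) ∧ w ∉ B ∧ G.Adj h w)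
    (hK : ¬ HasK4Minor (G.induce Bᶜ)) (y : V → ℝ) (ε : ℝ) (hy : ∀ u, 0 < y u) (hε : 0 < ε) :
    ∃ (x : V → ℕ) (N : ℕ), Function.Injective x ∧ (∀ u, 0 < x u) ∧ 0 < N ∧
      (∀ u, |(x u : ℝ) / N - y u| < ε) ∧ ∀ u w, G.Adj u w → IsSquare (x u ^ 2 + x w ^ 2) :=
  final_v V G h B hh hB hK y ε hy hε

end Pool.Agent.Results.MP_93721d_nt.Subdivisions
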